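import Mathlib

/-!
Additive colouring number is unbounded on bipartite graphs.
-/

set_option autoImplicit false

open Finset

namespace Pool.Agent.H455R3

/-- In a row of `N` values, at most `q * q` positions carry a residue mod `q` that is
attained fewer than `q` times. -/
theorem card_bad_le (q N : ℕ) (hq : 0 < q) (g : Fin N → ℕ) :
    (univ.filter (fun j : Fin N =>
      (univ.filter (fun j' => g j' % q = g j % q)).card < q)).card ≤ q * q := by
  have h := Finset.card_le_mul_card_image_of_maps_to
    (s := univ.filter (fun j : Fin N =>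
      (univ.filter (fun j' => g j' % q = g j % q)).card < q))
    (t := Finset.range q) (f := fun j => g j % q)
    (fun j _ => Finset.mem_range.mpr (Nat.mod_lt _ hq)) q ?_
  · simpa using h
  · intro b _
    by_cases hne : (filter (fun j => g j % q = b) (univ.filter (fun j : Fin N =>
      (univ.filter (fun j' => g j' % q = g j % q)).card < q))).Nonempty
    · obtain ⟨j0, hj0⟩ := hne
      simp only [mem_filter, mem_univ, true_and] at hj0
      refine le_trans (Finset.card_le_card ?_) hj0.1.le
      intro j hj
      simp only [mem_filter, mem_univ, true_and] at hj ⊢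
      rw [hj.2, hj0.2]
    · rw [Finset.not_nonempty_iff_eq_empty] at hne
      rw [hne]
      simp

theorem exists_pair (q N : ℕ) (hq : 0 < q) (hN : 2 * (q * q) < N)
    (G G' : Fin N → Fin N → ℕ) :
    ∃ i j, q ≤ (univ.filter (fun j' => G i j' % q = G i j % q)).card ∧
      q ≤ (univ.filter (fun i' => G' i' j % q = G' i j % q)).card := by
  by_contra hcon
  push Not at hcon
  have h1 : ∀ i j : Fin N, (1 : ℕ) ≤
      (if (univ.filter (fun j' => G i j' % q = G i j % q)).card < q then 1 else 0) +
      (if (univ.filter (fun i' => G' i' j % q = G' i j % q)).card < q then 1 else 0) := by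
    intro i j
    by_cases hr : q ≤ (univ.filter (fun j' => G i j' % q = G i j % q)).card
    · have := hcon i j hr
      rw [if_pos this]
      omega
    · rw [if_pos (by omega)]
      omega
  have h2 : N * N ≤ N * (q * q) + N * (q * q) := by
    calc N * N = ∑ i : Fin N, ∑ j : Fin N, 1 := by simp
      _ ≤ ∑ i : Fin N, ∑ j : Fin N,
        ((if (univ.filter (fun j' => G i j' % q = G i j % q)).card < q then 1 else 0) +
        (if (univ.filter (fun i' => G' i' j % q = G' i j % q)).card < q then 1 else 0)) :=
          Finset.sum_le_sum (fun i _ => Finset.sum_le_sum (fun j _ => h1 i j))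
      _ = (∑ i : Fin N, ∑ j : Fin N,
            (if (univ.filter (fun j' => G i j' % q = G i j % q)).card < q then 1 else 0)) +
          ∑ j : Fin N, ∑ i : Fin N,
            (if (univ.filter (fun i' => G' i' j % q = G' i j % q)).card < q then 1 else 0) := by
          rw [Finset.sum_comm (s := (univ : Finset (Fin N))) (t := (univ : Finset (Fin N)))
            (f := fun j i => (if (univ.filter (fun i' => G' i' j % q = G' i j % q)).card < q
              then 1 else 0))]
          rw [← Finset.sum_add_distrib]
          refine Finset.sum_congr rfl (fun i _ => ?_)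
          rw [← Finset.sum_add_distrib]
      _ ≤ ∑ _i : Fin N, q * q + ∑ _j : Fin N, q * q := by
          refine add_le_add (Finset.sum_le_sum (fun i _ => ?_))
            (Finset.sum_le_sum (fun j _ => ?_))
          · rw [← Finset.card_filter]
            exact card_bad_le q N hq (fun j => G i j)
          · rw [← Finset.card_filter]
            exact card_bad_le q N hq (fun i => G' i j)
      _ = N * (q * q) + N * (q * q) := by simp
  nlinarith

theorem dvd_sum_of_mod (q N : ℕ) (g : Fin N → ℕ) (A : Finset (Fin N)) (r : ℕ)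
    (hA : A.card = q) (h : ∀ j ∈ A, g j % q = r) : q ∣ ∑ j ∈ A, g j := by
  have : ∑ j ∈ A, g j = q * r + q * ∑ j ∈ A, g j / q := by
    rw [Finset.mul_sum]
    calc ∑ j ∈ A, g j = ∑ j ∈ A, (r + q * (g j / q)) := by
          refine Finset.sum_congr rfl (fun j hj => ?_)
          rw [← h j hj]
          exact (Nat.mod_add_div _ _).symm
      _ = _ := by
          rw [Finset.sum_add_distrib]
          simp [hA]
  rw [this]
  exact dvd_add (dvd_mul_right _ _) (dvd_mul_right _ _)

/-- The pattern lemma. -/
theorem pattern (q N : ℕ) (hq : 0 < q) (hN : 2 * (q * q) < N)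
    (G G' : Fin N → Fin N → ℕ) :
    ∃ (i j : Fin N) (A B : Finset (Fin N)), j ∈ A ∧ i ∈ B ∧
      q ∣ ∑ j' ∈ A, G i j' ∧ q ∣ ∑ i' ∈ B, G' i' j := by
  obtain ⟨i, j, h1, h2⟩ := exists_pair q N hq hN G G'
  obtain ⟨A, hjA, hA, hAc⟩ := Finset.exists_subsuperset_card_eq
    (s := {j}) (t := univ.filter (fun j' => G i j' % q = G i j % q)) (n := q)
    (by simp) (by simpa using Nat.succ_le_of_lt hq) h1
  obtain ⟨B, hiB, hB, hBc⟩ := Finset.exists_subsuperset_card_eq
    (s := {i}) (t := univ.filter (fun i' => G' i' j % q = G' i j % q)) (n := q)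
    (by simp) (by simpa using Nat.succ_le_of_lt hq) h2
  refine ⟨i, j, A, B, by simpa using hjA, by simpa using hiB, ?_, ?_⟩
  · exact dvd_sum_of_mod q N (fun j' => G i j') A (G i j % q) hAc
      (fun j' hj' => by simpa using hA hj')
  · exact dvd_sum_of_mod q N (fun i' => G' i' j) B (G' i j % q) hBc
      (fun i' hi' => by simpa using hB hi')

/-- Ports: whatever the labels in `1..C` of sufficiently many ports, every small multiple of
`C!` is the label sum of some set of ports. -/
theorem port_subset (C T : ℕ) (hC : 0 < C) (P : ℕ) (hP : C * (C.factorial * T) ≤ P)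
    (α : Fin P → ℕ) (hα : ∀ p, 1 ≤ α p ∧ α p ≤ C) (t : ℕ) (ht : t ≤ T) :
    ∃ A : Finset (Fin P), ∑ p ∈ A, α p = C.factorial * t := by
  obtain ⟨b, hb, hcard⟩ := Finset.exists_le_card_fiber_of_mul_le_card_of_maps_to
    (s := (univ : Finset (Fin P))) (t := Finset.Icc 1 C) (f := α)
    (n := C.factorial * T)
    (fun p _ => Finset.mem_Icc.mpr (hα p)) (Finset.nonempty_Icc.mpr hC) (by simpa using hP)
  rw [Finset.mem_Icc] at hb
  have hdvd : b ∣ C.factorial := Nat.dvd_factorial (by omega) hb.2
  obtain ⟨e, he⟩ := hdvd
  have hle : e * t ≤ (univ.filter (fun p => α p = b)).card := by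
    refine le_trans ?_ hcard
    refine Nat.mul_le_mul ?_ ht
    rw [he]
    exact Nat.le_mul_of_pos_left _ (by omega)
  obtain ⟨A, hA, hAc⟩ := Finset.exists_subset_card_eq hle
  refine ⟨A, ?_⟩
  calc ∑ p ∈ A, α p = ∑ _p ∈ A, b := by
        refine Finset.sum_congr rfl (fun p hp => ?_)
        simpa using hA hp
    _ = C.factorial * t := by
        rw [Finset.sum_const, hAc, he]
        simp only [smul_eq_mul]
        ring

theorem offset (n R : ℕ) (hn : 2 * R ≤ n * (n - 1)) (hn0 : 0 < n) (s t : ℕ)
    (hs : s ≤ R) (ht : t ≤ R) :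
    ∃ k l : Fin n, s + (R + (k : ℕ)) = t + n * (l : ℕ) := by
  set m := R + s - t with hm
  have hm2 : m ≤ n * (n - 1) := by omega
  -- l = ceil (m / n)
  have hl : (m + (n - 1)) / n < n := by
    rw [Nat.div_lt_iff_lt_mul hn0]
    have : n * n = n * (n - 1) + n := by
      obtain ⟨n', rfl⟩ : ∃ n', n = n' + 1 := ⟨n - 1, by omega⟩
      simp
      ring
    omega
  have h3 : n * ((m + (n - 1)) / n) ≤ m + (n - 1) := Nat.mul_div_le _ _
  have h4 : m + (n - 1) < n * ((m + (n - 1)) / n) + n := by
    have := Nat.lt_mul_div_succ (m + (n - 1)) hn0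
    rw [Nat.mul_add, Nat.mul_one] at this
    exact this
  refine ⟨⟨n * ((m + (n - 1)) / n) - m, by omega⟩, ⟨(m + (n - 1)) / n, hl⟩, ?_⟩
  simp only
  omega

end Pool.Agent.H455R3
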