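import Mathlib
import Pool.Agent.H455R3.Additive

set_option autoImplicit false

open Finset

namespace Pool.Agent.H455R3

/-- Labellings of the two families of ports. -/
abbrev Lab (C P : ℕ) : Type := (Fin P → Fin (C + 1)) × (Fin P → Fin (C + 1))

/-- One side of the bipartition: ports, and gadget vertices. -/
abbrev Side (C P n N : ℕ) : Type :=
  Fin P ⊕ (Lab C P × Fin n × Finset (Fin N) × Fin N)

/-- Adjacency between a left vertex and a right vertex. -/
def rel (C P n N R : ℕ) (PS : (Fin P → Fin (C + 1)) → ℕ → Finset (Fin P)) :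
    Side C P n N → Side C P n N → Prop
  | Sum.inl _, Sum.inl _ => False
  | Sum.inl p, Sum.inr (α, l, _, _) => p ∈ PS α.1 (n * (l : ℕ))
  | Sum.inr (α, k, _, _), Sum.inl p => p ∈ PS α.2 (R + (k : ℕ))
  | Sum.inr (α, _, A, i), Sum.inr (β, _, B, j) => α = β ∧ j ∈ A ∧ i ∈ B

/-- The bipartite graph of a relation. -/
def bip {A B : Type} (r : A → B → Prop) : SimpleGraph (A ⊕ B) where
  Adj
    | Sum.inl a, Sum.inr b => r a b
    | Sum.inr b, Sum.inl a => r a b
    | Sum.inl _, Sum.inl _ => False
    | Sum.inr _, Sum.inr _ => False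
  symm := ⟨by
    intro x y
    rcases x with x | x <;> rcases y with y | y <;> exact id⟩
  loopless := ⟨by
    intro x
    rcases x with x | x <;> exact id⟩

theorem bip_colorable {A B : Type} (r : A → B → Prop) : (bip r).Colorable 2 := by
  refine ⟨SimpleGraph.Coloring.mk (fun x => Sum.elim (fun _ => (0 : Fin 2)) (fun _ => 1) x) ?_⟩
  intro x y hxy
  rcases x with x | x <;> rcases y with y | y
  · exact hxy.elim
  · simp
  · simp
  · exact hxy.elim

open Classical in
theorem bip_sum_inl {A B : Type} [Fintype A] [Fintype B] (r : A → B → Prop)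
    (a : A) (f : A ⊕ B → ℕ) [Fintype ((bip r).neighborSet (Sum.inl a))] :
    ∑ w ∈ (bip r).neighborFinset (Sum.inl a), f w = ∑ b : B, if r a b then f (Sum.inr b) else 0 := by
  have : (bip r).neighborFinset (Sum.inl a) =
      (univ.filter (fun b => r a b)).map ⟨Sum.inr, Sum.inr_injective⟩ := by
    ext w
    simp only [SimpleGraph.mem_neighborFinset, mem_map, mem_filter, mem_univ, true_and,
      Function.Embedding.coeFn_mk]
    rcases w with w | w
    · constructor
      · intro h; exact h.elim
      · rintro ⟨b, _, hb⟩; cases hb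
    · constructor
      · intro h; exact ⟨w, h, rfl⟩
      · rintro ⟨b, hb, hb'⟩
        cases hb'
        exact hb
  rw [this, Finset.sum_map, Finset.sum_filter]
  rfl

open Classical in
theorem bip_sum_inr {A B : Type} [Fintype A] [Fintype B] (r : A → B → Prop)
    (b : B) (f : A ⊕ B → ℕ) [Fintype ((bip r).neighborSet (Sum.inr b))] :
    ∑ w ∈ (bip r).neighborFinset (Sum.inr b), f w = ∑ a : A, if r a b then f (Sum.inl a) else 0 := by
  have : (bip r).neighborFinset (Sum.inr b) =
      (univ.filter (fun a => r a b)).map ⟨Sum.inl, Sum.inl_injective⟩ := by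
    ext w
    simp only [SimpleGraph.mem_neighborFinset, mem_map, mem_filter, mem_univ, true_and,
      Function.Embedding.coeFn_mk]
    rcases w with w | w
    · constructor
      · intro h; exact ⟨w, h, rfl⟩
      · rintro ⟨b, hb, hb'⟩
        cases hb'
        exact hb
    · constructor
      · intro h; exact h.elim
      · rintro ⟨b, _, hb⟩; cases hb
  rw [this, Finset.sum_map, Finset.sum_filter]
  rfl

theorem rel_ll (C P n N R : ℕ) (PS : (Fin P → Fin (C + 1)) → ℕ → Finset (Fin P))
    (α : Lab C P) (k : Fin n) (A : Finset (Fin N)) (i : Fin N) (p : Fin P) :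
    rel C P n N R PS (Sum.inr (α, k, A, i)) (Sum.inl p) ↔ p ∈ PS α.2 (R + (k : ℕ)) := by
  constructor
  · intro h; exact h
  · intro h; exact h

theorem rel_rr (C P n N R : ℕ) (PS : (Fin P → Fin (C + 1)) → ℕ → Finset (Fin P))
    (α : Lab C P) (l : Fin n) (B : Finset (Fin N)) (j : Fin N) (p : Fin P) :
    rel C P n N R PS (Sum.inl p) (Sum.inr (α, l, B, j)) ↔ p ∈ PS α.1 (n * (l : ℕ)) := by
  constructor
  · intro h; exact h
  · intro h; exact h

theorem rel_gg (C P n N R : ℕ) (PS : (Fin P → Fin (C + 1)) → ℕ → Finset (Fin P))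
    (x y : Lab C P × Fin n × Finset (Fin N) × Fin N) :
    rel C P n N R PS (Sum.inr x) (Sum.inr y) ↔
      x.1 = y.1 ∧ y.2.2.2 ∈ x.2.2.1 ∧ x.2.2.2 ∈ y.2.2.1 := by
  constructor
  · intro h; exact h
  · intro h; exact h

open Classical in
/-- The sum over the right neighbours of a left gadget vertex. -/
theorem sum_rel_left (C P n N R : ℕ) (PS : (Fin P → Fin (C + 1)) → ℕ → Finset (Fin P))
    (α : Lab C P) (k : Fin n) (A : Finset (Fin N)) (i : Fin N) (f : Side C P n N → ℕ) :
    (∑ b : Side C P n N, if rel C P n N R PS (Sum.inr (α, k, A, i)) b then f b else 0) =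
      ∑ p ∈ PS α.2 (R + (k : ℕ)), f (Sum.inl p) +
        ∑ j ∈ A, ∑ l : Fin n, ∑ B : Finset (Fin N),
          if i ∈ B then f (Sum.inr (α, l, B, j)) else 0 := by
  rw [Fintype.sum_sum_type]
  congr 1
  · simp only [rel_ll]
    rw [← Finset.sum_filter]
    simp
  · simp only [rel_gg]
    rw [Fintype.sum_prod_type]
    rw [Finset.sum_eq_single α]
    · rw [Fintype.sum_prod_type]
      rw [Finset.sum_comm (s := A)]
      refine Finset.sum_congr rfl (fun l _ => ?_)
      rw [Fintype.sum_prod_type]
      rw [Finset.sum_comm (s := A)]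
      refine Finset.sum_congr rfl (fun B _ => ?_)
      rw [← Finset.sum_filter, ← Finset.sum_filter]
      simp only [true_and]
      by_cases hi : i ∈ B
      · simp [hi]
      · simp [hi]
    · intro β _ hβ
      refine Finset.sum_eq_zero (fun x _ => ?_)
      rw [if_neg]
      intro h
      exact hβ h.1.symm
    · intro h
      exact absurd (mem_univ _) h

open Classical in
/-- The sum over the left neighbours of a right gadget vertex. -/
theorem sum_rel_right (C P n N R : ℕ) (PS : (Fin P → Fin (C + 1)) → ℕ → Finset (Fin P))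
    (α : Lab C P) (l : Fin n) (B : Finset (Fin N)) (j : Fin N) (f : Side C P n N → ℕ) :
    (∑ a : Side C P n N, if rel C P n N R PS a (Sum.inr (α, l, B, j)) then f a else 0) =
      ∑ p ∈ PS α.1 (n * (l : ℕ)), f (Sum.inl p) +
        ∑ i ∈ B, ∑ k : Fin n, ∑ A : Finset (Fin N),
          if j ∈ A then f (Sum.inr (α, k, A, i)) else 0 := by
  rw [Fintype.sum_sum_type]
  congr 1
  · simp only [rel_rr]
    rw [← Finset.sum_filter]
    simp
  · simp only [rel_gg]
    rw [Fintype.sum_prod_type]
    rw [Finset.sum_eq_single α]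
    · rw [Fintype.sum_prod_type]
      rw [Finset.sum_comm (s := B)]
      refine Finset.sum_congr rfl (fun k _ => ?_)
      rw [Fintype.sum_prod_type]
      rw [Finset.sum_comm (s := B)]
      refine Finset.sum_congr rfl (fun A _ => ?_)
      rw [← Finset.sum_filter, ← Finset.sum_filter]
      simp only [true_and]
      by_cases hi : j ∈ A
      · simp [hi]
      · simp [hi]
    · intro β _ hβ
      refine Finset.sum_eq_zero (fun x _ => ?_)
      rw [if_neg]
      intro h
      exact hβ h.1
    · intro h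
      exact absurd (mem_univ _) h

/-- For every `C` there is a finite bipartite graph in which every labelling of the vertices
by `1..C` has two adjacent vertices with equal neighbourhood sums. -/
theorem exists_bipartite (C : ℕ) (hC : 0 < C) :
    ∃ (V : Type) (_ : Fintype V) (G : SimpleGraph V), G.Colorable 2 ∧
      ∀ (_ : DecidableRel G.Adj) (f : V → ℕ), (∀ v, 1 ≤ f v ∧ f v ≤ C) →
        ∃ u v, G.Adj u v ∧ ∑ w ∈ G.neighborFinset u, f w = ∑ w ∈ G.neighborFinset v, f w := by
  classical
  set q := C.factorial with hq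
  have hq0 : 0 < q := Nat.factorial_pos C
  set N := 2 * (q * q) + 1 with hN
  set n := 2 * (2 ^ N * N * C) + 1 with hn
  set R := n * (2 ^ N * N * C) with hR
  set T := R + n * n with hT
  set P := C * (C.factorial * T) with hP
  have hports : ∀ (α : Fin P → Fin (C + 1)), (∀ p, 1 ≤ ((α p : Fin (C+1)) : ℕ)) → ∀ t ≤ T,
      ∃ A : Finset (Fin P), ∑ p ∈ A, ((α p : Fin (C + 1)) : ℕ) = q * t := by
    intro α hα t ht
    exact port_subset C T hC P le_rfl (fun p => ((α p : Fin (C + 1)) : ℕ))
      (fun p => ⟨hα p, Nat.lt_succ_iff.mp (α p).2⟩) t ht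
  let PS : (Fin P → Fin (C + 1)) → ℕ → Finset (Fin P) := fun α t =>
    if h : (∀ p, 1 ≤ ((α p : Fin (C + 1)) : ℕ)) ∧ t ≤ T then
      Classical.choose (hports α h.1 t h.2) else ∅
  have hPS : ∀ (α : Fin P → Fin (C + 1)), (∀ p, 1 ≤ ((α p : Fin (C+1)) : ℕ)) → ∀ t ≤ T,
      ∑ p ∈ PS α t, ((α p : Fin (C + 1)) : ℕ) = q * t := by
    intro α hα t ht
    simp only [PS]
    rw [dif_pos ⟨hα, ht⟩]
    exact Classical.choose_spec (hports α hα t ht)
  refine ⟨Side C P n N ⊕ Side C P n N, inferInstance, bip (rel C P n N R PS),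
    bip_colorable _, ?_⟩
  intro _ f hf
  -- the port labels
  let αL : Fin P → Fin (C + 1) := fun p => ⟨f (Sum.inl (Sum.inl p)), by have := (hf (Sum.inl (Sum.inl p))).2; omega⟩
  let αR : Fin P → Fin (C + 1) := fun p => ⟨f (Sum.inr (Sum.inl p)), by have := (hf (Sum.inr (Sum.inl p))).2; omega⟩
  let α : Lab C P := (αL, αR)
  have hαL : ∀ p, 1 ≤ ((αL p : Fin (C + 1)) : ℕ) := fun p => (hf _).1
  have hαR : ∀ p, 1 ≤ ((αR p : Fin (C + 1)) : ℕ) := fun p => (hf _).1
  let G : Fin N → Fin N → ℕ := fun i j => ∑ l : Fin n, ∑ B : Finset (Fin N),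
          if i ∈ B then f (Sum.inr (Sum.inr (α, l, B, j))) else 0
  let G' : Fin N → Fin N → ℕ := fun i j => ∑ k : Fin n, ∑ A : Finset (Fin N),
          if j ∈ A then f (Sum.inl (Sum.inr (α, k, A, i))) else 0
  obtain ⟨i, j, A, B, hjA, hiB, hA, hB⟩ := pattern q N hq0 (by omega) G G'
  obtain ⟨s, hs⟩ := hA
  obtain ⟨t, ht⟩ := hB
  have hGle : ∀ i j, G i j ≤ n * (2 ^ N * C) := by
    intro i j
    calc G i j ≤ ∑ l : Fin n, ∑ B : Finset (Fin N), C := by
          refine Finset.sum_le_sum (fun l _ => Finset.sum_le_sum (fun B _ => ?_))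
          split_ifs
          · exact (hf _).2
          · exact Nat.zero_le _
      _ = n * (2 ^ N * C) := by simp
  have hG'le : ∀ i j, G' i j ≤ n * (2 ^ N * C) := by
    intro i j
    calc G' i j ≤ ∑ l : Fin n, ∑ B : Finset (Fin N), C := by
          refine Finset.sum_le_sum (fun l _ => Finset.sum_le_sum (fun B _ => ?_))
          split_ifs
          · exact (hf _).2
          · exact Nat.zero_le _
      _ = n * (2 ^ N * C) := by simp
  have hsR : s ≤ R := by
    have h1 : q * s ≤ R := by
      rw [← hs]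
      calc ∑ j' ∈ A, G i j' ≤ ∑ j' ∈ A, n * (2 ^ N * C) :=
            Finset.sum_le_sum (fun j' _ => hGle i j')
        _ = A.card * (n * (2 ^ N * C)) := by simp
        _ ≤ N * (n * (2 ^ N * C)) := by
            refine Nat.mul_le_mul_right _ ?_
            simpa using Finset.card_le_univ A
        _ = R := by rw [hR]; ring
    exact le_trans (Nat.le_mul_of_pos_left _ hq0) h1
  have htR : t ≤ R := by
    have h1 : q * t ≤ R := by
      rw [← ht]
      calc ∑ i' ∈ B, G' i' j ≤ ∑ i' ∈ B, n * (2 ^ N * C) :=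
            Finset.sum_le_sum (fun i' _ => hG'le i' j)
        _ = B.card * (n * (2 ^ N * C)) := by simp
        _ ≤ N * (n * (2 ^ N * C)) := by
            refine Nat.mul_le_mul_right _ ?_
            simpa using Finset.card_le_univ B
        _ = R := by rw [hR]; ring
    exact le_trans (Nat.le_mul_of_pos_left _ hq0) h1
  obtain ⟨k, l, hkl⟩ := offset n R (by rw [hR, hn]; simp only [Nat.add_sub_cancel]; nlinarith)
    (by omega) s t hsR htR
  refine ⟨Sum.inl (Sum.inr (α, k, A, i)), Sum.inr (Sum.inr (α, l, B, j)), ?_, ?_⟩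
  · exact ⟨rfl, hjA, hiB⟩
  · rw [bip_sum_inl, bip_sum_inr]
    have e1 := sum_rel_left C P n N R PS α k A i (fun b => f (Sum.inr b))
    have e2 := sum_rel_right C P n N R PS α l B j (fun a => f (Sum.inl a))
    have hk : R + (k : ℕ) ≤ T := by
      have := k.2
      have h2 : n ≤ n * n := Nat.le_mul_self n
      omega
    have hl : n * (l : ℕ) ≤ T := by
      have h2 : n * (l : ℕ) ≤ n * n := Nat.mul_le_mul_left _ l.2.le
      omega
    have p1 := hPS αR hαR (R + (k : ℕ)) hk
    have p2 := hPS αL hαL (n * (l : ℕ)) hl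
    have e1' : (∑ b : Side C P n N, if rel C P n N R PS (Sum.inr (α, k, A, i)) b
        then f (Sum.inr b) else 0) = q * (R + k) + q * s := by
      rw [e1, ← hs, ← p1]
    have e2' : (∑ a : Side C P n N, if rel C P n N R PS a (Sum.inr (α, l, B, j))
        then f (Sum.inl a) else 0) = q * (n * l) + q * t := by
      rw [e2, ← ht, ← p2]
    rw [e1', e2', ← Nat.mul_add, ← Nat.mul_add]
    congr 1
    omega

end Pool.Agent.H455R3
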