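import Mathlib
import Pool.Agent.H197R3.SF.Stmts

set_option autoImplicit false
set_option linter.all false

/-! Task H197-SF TaskLim: the almost periodic part as a limit of translates. -/

namespace Pool.Agent.H455R3.SF

open MeasureTheory Filter Topology Set
open Pool.Agent.H197R3.SF

theorem norm_ch (w t : ℝ) : ‖ch w t‖ = 1 := by
  unfold ch
  rw [Complex.norm_exp]
  simp

theorem ch_add (a b t : ℝ) : ch (a + b) t = ch a t * ch b t := by
  unfold ch
  rw [← Complex.exp_add]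
  congr 1
  push_cast
  ring

/-- simultaneous recurrence -/
theorem recur (S : Finset ℝ) (ε : ℝ) (hε : 0 < ε) (k : ℕ) :
    ∃ N : ℕ, k ≤ N ∧ ∀ t ∈ S, ‖ch N t - 1‖ < ε := by
  let x : ℕ → (S → ℂ) := fun j t => ch j t
  have hb : ∀ j, x j ∈ Metric.closedBall (0 : S → ℂ) 1 := by
    intro j
    rw [mem_closedBall_zero_iff, pi_norm_le_iff_of_nonneg zero_le_one]
    intro t
    exact (norm_ch _ _).le
  obtain ⟨a, _, φ, hφ, hlim⟩ := tendsto_subseq_of_bounded Metric.isBounded_closedBall hb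
  have hc := hlim.cauchySeq
  rw [Metric.cauchySeq_iff] at hc
  obtain ⟨m, hm⟩ := hc ε hε
  have h1 := hm (m + k) (by omega) m le_rfl
  have hmk : φ m + k ≤ φ (m + k) := by
    induction k with
    | zero => simp
    | succ k ih =>
      have h2 := hφ (show m + k < m + (k + 1) by omega)
      have h3 : φ m + k ≤ φ (m + k) := ih (hm (m + k) (by omega) m le_rfl)
      omega
  refine ⟨φ (m + k) - φ m, by omega, ?_⟩
  intro t ht
  have h2 : ‖(x ∘ φ) (m + k) ⟨t, ht⟩ - (x ∘ φ) m ⟨t, ht⟩‖ < ε := by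
    have h3 : ‖((x ∘ φ) (m + k) - (x ∘ φ) m) ⟨t, ht⟩‖ ≤ ‖(x ∘ φ) (m + k) - (x ∘ φ) m‖ :=
      norm_le_pi_norm _ _
    rw [dist_eq_norm] at h1
    exact lt_of_le_of_lt h3 h1
  have h3 : (x ∘ φ) (m + k) ⟨t, ht⟩ = ch ((φ (m + k) - φ m : ℕ) : ℝ) t * ch (φ m : ℝ) t := by
    rw [← ch_add, Nat.cast_sub (by omega)]
    show ch (φ (m + k) : ℝ) t = _
    congr 1
    ring
  have h4 : (x ∘ φ) m ⟨t, ht⟩ = ch (φ m : ℝ) t := rfl
  rw [h3, h4] at h2
  have h5 : ch ((φ (m + k) - φ m : ℕ) : ℝ) t * ch (φ m : ℝ) t - ch (φ m : ℝ) t =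
      (ch ((φ (m + k) - φ m : ℕ) : ℝ) t - 1) * ch (φ m : ℝ) t := by ring
  rw [h5, norm_mul, norm_ch, mul_one] at h2
  exact h2

/-- Riemann-Lebesgue -/
theorem riemLeb (f : ℝ → ℂ) : Tendsto (fun w : ℝ => ∫ t, f t * ch w t) atTop (𝓝 0) := by
  have h1 := Real.tendsto_integral_exp_smul_cocompact f
  have h2 : Tendsto (fun w : ℝ => w / (2 * Real.pi)) atTop (cocompact ℝ) := by
    have h3 : Tendsto (fun w : ℝ => w / (2 * Real.pi)) atTop atTop :=
      tendsto_id.atTop_div_const (by positivity)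
    exact h3.mono_right atTop_le_cocompact
  refine (h1.comp h2).congr ?_
  intro w
  simp only [Function.comp_apply]
  refine integral_congr_ae (Filter.Eventually.of_forall (fun t => ?_))
  simp only [Circle.smul_def, Real.fourierChar_apply, smul_eq_mul]
  rw [mul_comm]
  congr 1
  unfold ch
  congr 1
  have hpi : (Real.pi : ℂ) ≠ 0 := by exact_mod_cast Real.pi_ne_zero
  push_cast
  field_simp

theorem lim_aux (σ : ℝ) (hσ : 0 < σ) (c : ℝ → ℂ) (hc : Summable (fun t : ℝ => ‖c t‖ * Real.exp (σ * |t|))) :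
    Summable (fun t : ℝ => ‖c t‖) := by
  refine Summable.of_nonneg_of_le (fun t => norm_nonneg _) (fun t => ?_) hc
  have h1 : 1 ≤ Real.exp (σ * |t|) := Real.one_le_exp (by positivity)
  nlinarith [norm_nonneg (c t)]

theorem taskLim : TaskLim := by
  intro n σ Fa Fd hσ hFa hFd ω
  choose fa ca hA using hFa
  choose fd cd hD using hFd
  have hsum : ∀ i j, Summable (fun t : ℝ => ‖cd i j t‖) := fun i j => lim_aux σ hσ _ (hD i j).summ
  -- finite sets carrying most of the mass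
  have hS : ∀ k : ℕ, ∃ S : Finset ℝ, ∀ i j, ∑' t : {t // t ∉ S}, ‖cd i j t‖ < 1 / ((k : ℝ) + 1) := by
    intro k
    have hk : (0 : ℝ) < 1 / ((k : ℝ) + 1) := by positivity
    have h1 : ∀ i j, ∀ᶠ S : Finset ℝ in atTop, ∑' t : {t // t ∉ S}, ‖cd i j t‖ < 1 / ((k : ℝ) + 1) := by
      intro i j
      have h2 := tendsto_tsum_compl_atTop_zero (fun t : ℝ => ‖cd i j t‖)
      exact h2.eventually (gt_mem_nhds hk)
    have h3 : ∀ᶠ S : Finset ℝ in atTop, ∀ i j,
        ∑' t : {t // t ∉ S}, ‖cd i j t‖ < 1 / ((k : ℝ) + 1) := by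
      rw [Filter.eventually_all]
      intro i
      rw [Filter.eventually_all]
      exact fun j => h1 i j
    exact h3.exists
  choose S hS using hS
  have hN : ∀ k : ℕ, ∃ N : ℕ, k ≤ N ∧ ∀ t ∈ S k, ‖ch N t - 1‖ < 1 / ((k : ℝ) + 1) :=
    fun k => recur (S k) _ (by positivity) k
  choose N hNk hN using hN
  refine ⟨fun k => (N k : ℝ), ?_⟩
  intro i j
  have hNt : Tendsto (fun k : ℕ => ω + (N k : ℝ)) atTop atTop := by
    apply tendsto_atTop_add_const_left
    exact tendsto_natCast_atTop_atTop.comp (tendsto_atTop_mono hNk tendsto_id)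
  have hFa0 : ∀ w, Fa w i j = ∫ t, fa i j t * ch w t := by
    intro w
    rw [(hA i j).eq w]
    have h1 : ∀ t : ℝ, ca i j t * ch w t = 0 := fun t => by
      rw [(hA i j).cK t (by simp), zero_mul]
    simp [h1]
  have hFd0 : ∀ w, Fd w i j = ∑' t : ℝ, cd i j t * ch w t := by
    intro w
    rw [(hD i j).eq w]
    have h1 : ∀ t : ℝ, fd i j t * ch w t = 0 := fun t => by
      rw [(hD i j).fE t (by simp), zero_mul]
    simp [h1]
  have hFalim : Tendsto (fun k : ℕ => Fa (ω + (N k : ℝ)) i j) atTop (𝓝 0) := by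
    have h1 := (riemLeb (fa i j)).comp hNt
    refine h1.congr (fun k => ?_)
    rw [Function.comp_apply, hFa0]
  have hFdlim : Tendsto (fun k : ℕ => Fd (ω + (N k : ℝ)) i j) atTop (𝓝 (Fd ω i j)) := by
    rw [tendsto_iff_norm_sub_tendsto_zero]
    set M : ℝ := ∑' t : ℝ, ‖cd i j t‖ with hM
    have hbound : ∀ k : ℕ, ‖Fd (ω + (N k : ℝ)) i j - Fd ω i j‖ ≤ (M + 2) * (1 / ((k : ℝ) + 1)) := by
      intro k
      have hs1 : Summable (fun t : ℝ => cd i j t * ch (ω + (N k : ℝ)) t) := by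
        refine Summable.of_norm ?_
        simpa only [norm_mul, norm_ch, mul_one] using hsum i j
      have hs2 : Summable (fun t : ℝ => cd i j t * ch ω t) := by
        refine Summable.of_norm ?_
        simpa only [norm_mul, norm_ch, mul_one] using hsum i j
      rw [hFd0, hFd0, ← hs1.tsum_sub hs2]
      have hterm : ∀ t : ℝ, ‖cd i j t * ch (ω + (N k : ℝ)) t - cd i j t * ch ω t‖ =
          ‖cd i j t‖ * ‖ch (N k) t - 1‖ := by
        intro t
        have h1 : cd i j t * ch (ω + (N k : ℝ)) t - cd i j t * ch ω t =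
            cd i j t * ch ω t * (ch (N k) t - 1) := by
          rw [ch_add]; ring
        rw [h1, norm_mul, norm_mul, norm_ch, mul_one]
      have hsn : Summable (fun t : ℝ => ‖cd i j t‖ * ‖ch (N k) t - 1‖) := by
        have h1 := (hs1.sub hs2).norm
        simpa only [hterm] using h1
      have h1 : ‖∑' t : ℝ, (cd i j t * ch (ω + (N k : ℝ)) t - cd i j t * ch ω t)‖ ≤
          ∑' t : ℝ, ‖cd i j t‖ * ‖ch (N k) t - 1‖ := by
        refine (norm_tsum_le_tsum_norm ?_).trans (le_of_eq (tsum_congr hterm))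
        exact (hs1.sub hs2).norm
      refine h1.trans ?_
      rw [← hsn.sum_add_tsum_subtype_compl (S k)]
      have h2 : ∑ t ∈ S k, ‖cd i j t‖ * ‖ch (N k) t - 1‖ ≤ M * (1 / ((k : ℝ) + 1)) := by
        calc ∑ t ∈ S k, ‖cd i j t‖ * ‖ch (N k) t - 1‖
            ≤ ∑ t ∈ S k, ‖cd i j t‖ * (1 / ((k : ℝ) + 1)) :=
              Finset.sum_le_sum (fun t ht => mul_le_mul_of_nonneg_left (hN k t ht).le (norm_nonneg _))
          _ = (∑ t ∈ S k, ‖cd i j t‖) * (1 / ((k : ℝ) + 1)) := by rw [Finset.sum_mul]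
          _ ≤ M * (1 / ((k : ℝ) + 1)) :=
              mul_le_mul_of_nonneg_right ((hsum i j).sum_le_tsum _ (fun t _ => norm_nonneg _))
                (by positivity)
      have h3 : ∑' t : {t // t ∉ S k}, ‖cd i j t‖ * ‖ch (N k) t - 1‖ ≤ 2 * (1 / ((k : ℝ) + 1)) := by
        have h4 : ∑' t : {t // t ∉ S k}, ‖cd i j t‖ * ‖ch (N k) t - 1‖ ≤
            ∑' t : {t // t ∉ S k}, 2 * ‖cd i j t‖ := by
          refine Summable.tsum_le_tsum (fun t => ?_) ?_ ?_
          · have h5 : ‖ch (N k) t - 1‖ ≤ 2 := by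
              calc ‖ch (N k) t - 1‖ ≤ ‖ch (N k) t‖ + ‖(1 : ℂ)‖ := norm_sub_le _ _
                _ = 2 := by rw [norm_ch, norm_one]; norm_num
            have h6 := mul_le_mul_of_nonneg_left h5 (norm_nonneg (cd i j t))
            linarith
          · exact hsn.subtype _
          · exact ((hsum i j).subtype _).mul_left 2
        rw [tsum_mul_left] at h4
        have h7 := hS k i j
        linarith
      calc _ ≤ M * (1 / ((k : ℝ) + 1)) + 2 * (1 / ((k : ℝ) + 1)) := add_le_add h2 h3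
        _ = (M + 2) * (1 / ((k : ℝ) + 1)) := by ring
    refine squeeze_zero (fun k => norm_nonneg _) hbound ?_
    have h8 := (tendsto_one_div_add_atTop_nhds_zero_nat (𝕜 := ℝ)).const_mul (M + 2)
    simpa using h8
  have := hFalim.add hFdlim
  simpa using this

end Pool.Agent.H455R3.SF
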